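import Pool.Agent.Y442.LA.Gen

/-! `S_NUC`: the nucleus of the bounded group. -/

set_option autoImplicit false

open Classical

namespace Pool.Agent.Y442.LA

open Pool.Agent.Y462.SS Pool.Agent.Y524L

variable {X : Type} (d : X)

/-- the image of a step -/
def bb (N : ℕ) (b : B1 d N) : BT d :=
  ⟨⟨fun x => (b.1.s x).1, b.1.p⟩, b.2.1, congrArg Subtype.val b.2.2⟩

theorem act_dl' (N : ℕ) (w : List X) (ξ : ℕ → X) (β : ℕ → B1 d N) (η : ℕ → X) :
    act (Pool.Agent.Y462.SS.psi d N) (Pool.Agent.Y462.SS.dl d N ξ β η) w =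
      dA d ξ (fun n => bb d N (β n)) η w := by
  induction w generalizing ξ β η with
  | nil => rw [act_nil, dA_nil]
  | cons x w ih =>
    rw [act_cons, dA_cons, Pool.Agent.Y462.SS.psi_dl_p]
    congr 1
    by_cases hx : x = ξ 0
    · rw [if_pos hx, hx, Pool.Agent.Y462.SS.psi_dl_s_ray]
      exact ih _ _ _
    · rw [if_neg hx, Pool.Agent.Y462.SS.psi_dl_s_off _ _ _ _ _ _ hx, act_iA]
      rfl

theorem bb_mem [Finite X] (N : ℕ) (β : ℕ → B1 d N) :
    (fun n => bb d N (β n)) ∈ PH d (Fn X) := by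
  have := finite_B1 d N
  refine ⟨(Set.finite_range (bb d N)).subset ?_, fun n x => ?_⟩
  · rintro _ ⟨n, rfl⟩
    exact ⟨β n, rfl⟩
  · exact ⟨N, ((β n).1.s x).2⟩

theorem ev_tau [Finite X] (N : ℕ) (γ : Gam d N) :
    Ev d (Fn X) (tau (Pool.Agent.Y462.SS.psi d N) γ) := by
  have h0 := en_all d N γ
  induction h0 with
  | nucA a =>
    rw [tau_iA]
    exact Ev.of_gd (Or.inl ⟨N, a.2⟩)
  | nucD ξ β η =>
    refine Ev.of_gd (Or.inr ⟨ξ, fun n => bb d N (β n), η, bb_mem d N β, ?_⟩)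
    apply Subtype.ext
    apply Equiv.ext
    intro w
    exact act_dl' d N w ξ β η
  | step γ _ ih =>
    refine Ev.of_sec lc_Fn fun x => ?_
    rw [sec_tau]
    exact ih x

theorem ev_Lv [Finite X] (N n : ℕ) : ∀ a ∈ Lv (M d N) n, Ev d (Fn X) a := by
  induction n with
  | zero =>
    rintro a ⟨γ, rfl⟩
    exact ev_tau d N γ
  | succ n ih =>
    intro a ha
    exact Ev.of_sec lc_Fn fun x => ih _ (ha x)

theorem t_nuc : S_NUC := by
  intro X _ d a ha
  obtain ⟨N, hN⟩ := ha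
  exact ev_Lv d N N a hN

end Pool.Agent.Y442.LA
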