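import Pool.Agent.Y524L.St
import Pool.Agent.Y430.SS.Lf
import Pool.Agent.Y812.SS.Wr

/-! `S_PHC` and `S_PLF`: sequences with finitely many values. -/

set_option autoImplicit false

open Classical

namespace Pool.Agent.Y442.LA

open Pool.Agent.Y462.SS Pool.Agent.Y524L

variable {X : Type} (d : X)

/-- the steps with sections in `H` -/
def BH (H : Subgroup (T X)) : Subgroup (BT d) where
  carrier := {b | ∀ x, b.1.s x ∈ H}
  one_mem' := fun _ => one_mem H
  mul_mem' := fun ha hb x => mul_mem (ha _) (hb x)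
  inv_mem' := fun ha _ => inv_mem (ha _)

/-- the embedding in the wreath product -/
def BHw (H : Subgroup (T X)) : BH d H →* Wr X H where
  toFun b := ⟨fun x => ⟨b.1.1.s x, b.2 x⟩, b.1.1.p⟩
  map_one' := rfl
  map_mul' _ _ := rfl

theorem BHw_injective (H : Subgroup (T X)) : Function.Injective (BHw d H) := by
  intro a b hab
  apply Subtype.ext
  apply Subtype.ext
  apply Wr.ext
  · funext x
    exact congrArg Subtype.val (congrFun (congrArg Wr.s hab) x)
  · exact congrArg (fun z : Wr X H => z.p) hab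

/-- the sequences which are constant on the level sets of the members of `s` -/
def Gs (H : Subgroup (T X)) (s : Finset (PH d H)) : Subgroup (PH d H) where
  carrier := {f | ∀ m n, (∀ g ∈ s, g.1 m = g.1 n) → f.1 m = f.1 n}
  one_mem' := fun _ _ _ => rfl
  mul_mem' := by
    intro a b ha hb m n h
    show a.1 m * b.1 m = a.1 n * b.1 n
    rw [ha m n h, hb m n h]
  inv_mem' := by
    intro a ha m n h
    show (a.1 m)⁻¹ = (a.1 n)⁻¹
    rw [ha m n h]

theorem C_Gs {C : ∀ (G : Type) [Group G], Prop} (hC : Closed C) [Finite X]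
    (H : Subgroup (T X)) (hH : C H) (s : Finset (PH d H)) : C (Gs d H s) := by
  have h1 : C (BH d H) :=
    hC.of_injective _ _ (BHw d H) (BHw_injective d H)
      (Pool.Agent.Y812.SS.t_wr C hC X H inferInstance hH)
  let φ : ℕ → (s → BT d) := fun n g => g.1.1 n
  have hfin : (Set.range φ).Finite := by
    refine (Set.Finite.pi (t := fun g : s => Set.range g.1.1) fun g => g.1.2.1).subset ?_
    rintro _ ⟨n, rfl⟩ g _
    exact ⟨n, rfl⟩
  have : Finite (Set.range φ) := hfin
  have h2 := Pool.Agent.Y812.SS.C_pow hC (Set.range φ) (BH d H) h1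
  let e : Gs d H s →* (Set.range φ → BH d H) :=
    { toFun := fun f z => ⟨f.1.1 z.2.choose, fun x => f.1.2.2 _ x⟩
      map_one' := rfl
      map_mul' := fun _ _ => rfl }
  refine hC.of_injective _ _ e ?_ h2
  intro f g hfg
  apply Subtype.ext
  apply Subtype.ext
  funext n
  have h3 := congrArg Subtype.val (congrFun hfg ⟨φ n, n, rfl⟩)
  have h4 : φ ((⟨n, rfl⟩ : φ n ∈ Set.range φ).choose) = φ n :=
    (⟨n, rfl⟩ : φ n ∈ Set.range φ).choose_spec
  have h5 : ∀ g ∈ s, g.1 ((⟨n, rfl⟩ : φ n ∈ Set.range φ).choose) = g.1 n :=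
    fun g hg => congrFun h4 ⟨g, hg⟩
  have h6 := f.2 _ _ h5
  have h7 := g.2 _ _ h5
  rw [← h6, ← h7]
  exact h3

theorem t_phc : S_PHC := by
  intro C hC X _ d H hH
  refine Pool.Agent.Y430.SS.of_directed hC (PH d H) (Finset (PH d H))
    (fun i j => ⟨i ∪ j, Finset.subset_union_left, Finset.subset_union_right⟩) (Gs d H) ?_ ?_ ?_
  · intro s t hst f hf m n h
    exact hf m n fun g hg => h g (hst hg)
  · intro f
    exact ⟨{f}, fun m n h => h f (Finset.mem_singleton_self f)⟩
  · intro s
    exact C_Gs d hC H hH s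

theorem finite_BH_Dk [Finite X] (k : ℕ) : Finite (BH d (Dk X k)) := by
  have := finite_Dk (X := X) k
  have : Finite (Wr X (Dk X k)) := by
    refine Finite.of_injective (fun g : Wr X (Dk X k) => (g.s, g.p)) ?_
    intro g h hgh
    exact Wr.ext (congrArg Prod.fst hgh) (congrArg Prod.snd hgh)
  exact Finite.of_injective _ (BHw_injective d (Dk X k))

theorem t_plf : S_PLF := by
  intro X _ d s
  have hk : ∃ k, ∀ β ∈ s, ∀ n x, IsDep k ((β.1 n).1.s x) := by
    have h0 : ∀ β : PH d (Fn X), ∃ k, ∀ n x, IsDep k ((β.1 n).1.s x) :=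
      fun β => exists_dep d β.2
    choose f hf using h0
    exact ⟨s.sup f, fun β hβ n x => isDep_le (Finset.le_sup hβ) (hf β n x)⟩
  obtain ⟨k, hk⟩ := hk
  have := finite_BH_Dk d k
  let c : PH d (Fn X) → (ℕ → BH d (Dk X k)) := fun β n =>
    if h : β.1 n ∈ BH d (Dk X k) then ⟨β.1 n, h⟩ else 1
  let i : (ℕ → BH d (Dk X k)) →* (ℕ → BT d) :=
    { toFun := fun f n => (f n).1
      map_one' := rfl
      map_mul' := fun _ _ => rfl }
  have hfin := Pool.Agent.Y430.SS.t_pow (BH d (Dk X k)) ℕ inferInstance (s.image c)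
  have h1 : (Subgroup.closure (s : Set (PH d (Fn X)))).map (PH d (Fn X)).subtype =
      (Subgroup.closure ((s.image c : Finset _) : Set (ℕ → BH d (Dk X k)))).map i := by
    rw [MonoidHom.map_closure, MonoidHom.map_closure]
    congr 1
    rw [Finset.coe_image, Set.image_image]
    refine Set.image_congr fun β hβ => ?_
    funext n
    have h2 : β.1 n ∈ BH d (Dk X k) := fun x => hk β hβ n x
    show β.1 n = ((c β n : BH d (Dk X k)) : BT d)
    simp only [c, dif_pos h2]
  have h2 : Finite ((Subgroup.closure (s : Set (PH d (Fn X)))).map (PH d (Fn X)).subtype) := by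
    rw [h1]
    exact Set.Finite.image i hfin
  exact Finite.of_injective
    ((Subgroup.closure (s : Set (PH d (Fn X)))).equivMapOfInjective (PH d (Fn X)).subtype
      (PH d (Fn X)).subtype_injective) (Equiv.injective _)

end Pool.Agent.Y442.LA
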