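import Pool.Agent.Y524L.St

/-! `S_GEN`: sections of large level are bounded or directed. -/

set_option autoImplicit false
set_option linter.unusedSectionVars false

open Classical

namespace Pool.Agent.Y442.LA

open Pool.Agent.Y462.SS Pool.Agent.Y524L

variable {X : Type} (d : X)

/-- `g` is in `H` or directed with steps in `H` -/
def Gd (H : Subgroup (T X)) (g : T X) : Prop :=
  g ∈ H ∨ ∃ (ξ : ℕ → X) (β : ℕ → BT d) (η : ℕ → X), β ∈ PH d H ∧ g = dT d ξ β η

variable {d}

theorem Gd.sec {H : Subgroup (T X)} (hH : LC H) {g : T X} (hg : Gd d H g) (x : X) :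
    Gd d H (sec g x) := by
  rcases hg with h | ⟨ξ, β, η, hβ, rfl⟩
  · exact Or.inl (hH.sec_mem g h x)
  · by_cases hx : x = ξ 0
    · rw [hx, sec_dT_ray]
      exact Or.inr ⟨sh ξ, sh β, sh η, sh_mem_PH d hβ, rfl⟩
    · rw [sec_dT_off d ξ β η x hx]
      exact Or.inl (hβ.2 0 _)

theorem Gd.secW {H : Subgroup (T X)} (hH : LC H) {g : T X} (hg : Gd d H g) (v : List X) :
    Gd d H (secW g v) := by
  induction v generalizing g with
  | nil => exact hg
  | cons x v ih => exact ih (hg.sec hH x)

/-- the sections of some level are good -/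
def Ev (d : X) (H : Subgroup (T X)) (g : T X) : Prop :=
  ∃ n, ∀ v : List X, v.length = n → Gd d H (secW g v)

theorem Ev.of_gd {H : Subgroup (T X)} {g : T X} (hg : Gd d H g) : Ev d H g := by
  refine ⟨0, fun v hv => ?_⟩
  rw [List.length_eq_zero_iff.1 hv]
  exact hg

theorem Ev.of_sec [Finite X] {H : Subgroup (T X)} (hH : LC H) {g : T X}
    (h : ∀ x, Ev d H (Pool.Agent.Y462.SS.sec g x)) : Ev d H g := by
  have := Fintype.ofFinite X
  choose f hf using h
  refine ⟨Finset.univ.sup f + 1, fun v hv => ?_⟩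
  cases v with
  | nil => simp at hv
  | cons x v =>
    rw [secW_cons]
    have hlen : v.length = Finset.univ.sup f := by simpa using hv
    have hle : f x ≤ v.length := by
      rw [hlen]
      exact Finset.le_sup (Finset.mem_univ x)
    rw [← List.take_append_drop (f x) v, secW_append]
    refine Gd.secW hH (hf x _ ?_) _
    rw [List.length_take]
    omega

/-- the hypothesis on `g` -/
def Cd (F : Finset (T X)) (R : Finset (ℕ → X)) (g : T X) : Prop :=
  ∀ v : List X, (∀ ρ ∈ R, ¬ OnRay ρ v) → ∃ v₁ v₂ : List X, v = v₁ ++ v₂ ∧ secW g v₁ ∈ F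

theorem Cd.sec {F : Finset (T X)} {R : Finset (ℕ → X)} {g : T X} (h : Cd F R g) (hg : g ∉ F)
    (x : X) : Cd F (shR R x) (sec g x) := by
  intro v hv
  obtain ⟨v₁, v₂, h1, h2⟩ := h (x :: v) (by
    intro ρ hρ h1
    rw [onRay_cons] at h1
    refine hv (sh ρ) ?_ h1.2
    exact Finset.mem_image.2 ⟨ρ, Finset.mem_filter.2 ⟨hρ, h1.1.symm⟩, rfl⟩)
  cases v₁ with
  | nil => exact absurd h2 hg
  | cons y v₁ =>
    rw [List.cons_append, List.cons.injEq] at h1
    obtain ⟨rfl, rfl⟩ := h1
    exact ⟨v₁, v₂, rfl, h2⟩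

theorem Cd.empty {F : Finset (T X)} {g : T X} (h : Cd F ∅ g) : g ∈ F := by
  obtain ⟨v₁, v₂, h1, h2⟩ := h [] (by simp)
  rw [List.nil_eq_append_iff] at h1
  rw [h1.1] at h2
  exact h2

theorem Cd.mono {F : Finset (T X)} {R S : Finset (ℕ → X)} (hRS : R ⊆ S) {g : T X}
    (h : Cd F R g) : Cd F S g := fun v hv => h v fun ρ hρ => hv ρ (hRS hρ)

theorem Cd.single {F : Finset (T X)} {ρ : ℕ → X} {g : T X} (h : Cd F {ρ} g) (n : ℕ) :
    (∀ m ≤ n, al ρ g m ∉ F) → ∀ x, x ≠ ρ n → Pool.Agent.Y462.SS.sec (al ρ g n) x ∈ F := by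
  induction n generalizing ρ g with
  | zero =>
    intro hF x hx
    have h1 := h.sec (hF 0 le_rfl) x
    have h2 : shR {ρ} x = ∅ := by
      rw [shR, Finset.filter_singleton, if_neg (Ne.symm hx)]
      rfl
    rw [h2] at h1
    exact h1.empty
  | succ n ih =>
    intro hF x hx
    have h1 := h.sec (hF 0 (Nat.zero_le _)) (ρ 0)
    have h2 : shR {ρ} (ρ 0) = {sh ρ} := by
      rw [shR, Finset.filter_singleton, if_pos rfl]
      rfl
    rw [h2] at h1
    rw [← al_sh]
    refine ih h1 (fun m hm => ?_) x hx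
    rw [al_sh]
    exact hF (m + 1) (Nat.succ_le_succ hm)

/-- the action of a directed automorphism given by the sections along the ray -/
theorem dA_eq (d : X) (w : List X) (h : T X) (ξ : ℕ → X) (β : ℕ → BT d) (η : ℕ → X)
    (h2 : ∀ n, (β n).1.p = Equiv.swap d (η n) * root (al ξ h n) * Equiv.swap d (ξ n))
    (h3 : ∀ n x, x ≠ d →
      (β n).1.s x = Pool.Agent.Y462.SS.sec (al ξ h n) (Equiv.swap d (ξ n) x)) :
    dA d ξ β η w = h.1 w := by
  induction w generalizing h ξ β η with
  | nil => rw [dA_nil, nil_eq]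
  | cons x w ih =>
    rw [dA_cons, cons_eq, h2]
    have h4 : Equiv.swap d (η 0) ((Equiv.swap d (η 0) * root (al ξ h 0) * Equiv.swap d (ξ 0))
        (Equiv.swap d (ξ 0) x)) = root h x := by
      rw [Equiv.Perm.mul_apply, Equiv.Perm.mul_apply, Equiv.swap_apply_self,
        Equiv.swap_apply_self]
      rfl
    rw [h4]
    congr 1
    by_cases hx : x = ξ 0
    · rw [if_pos hx, hx]
      apply ih
      · intro n
        rw [al_sh]
        exact h2 (n + 1)
      · intro n y hy
        rw [al_sh]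
        exact h3 (n + 1) y hy
    · rw [if_neg hx, h3]
      · rw [Equiv.swap_apply_self]
        rfl
      · intro h5
        apply hx
        rw [Equiv.swap_apply_eq_iff, Equiv.swap_apply_left] at h5
        exact h5

/-- the automorphisms with sections in `F` off the ray are directed -/
theorem dir_of [Finite X] {H : Subgroup (T X)} {F : Finset (T X)} (hF : ∀ f ∈ F, f ∈ H)
    {ρ : ℕ → X} {g : T X} (h : ∀ n x, x ≠ ρ n → Pool.Agent.Y462.SS.sec (al ρ g n) x ∈ F) :
    Gd d H g := by
  have hoff : ∀ n x, x ≠ d →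
      Pool.Agent.Y462.SS.sec (al ρ g n) (Equiv.swap d (ρ n) x) ∈ F := by
    intro n x hx
    apply h
    intro h5
    apply hx
    rw [Equiv.swap_apply_eq_iff, Equiv.swap_apply_right] at h5
    exact h5
  set β : ℕ → BT d := fun n =>
    ⟨⟨fun x => if x = d then 1 else Pool.Agent.Y462.SS.sec (al ρ g n) (Equiv.swap d (ρ n) x),
      Equiv.swap d (root (al ρ g n) (ρ n)) * root (al ρ g n) * Equiv.swap d (ρ n)⟩, by
      refine ⟨?_, if_pos rfl⟩
      change (Equiv.swap d (root (al ρ g n) (ρ n)) * root (al ρ g n) * Equiv.swap d (ρ n)) d = d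
      rw [Equiv.Perm.mul_apply, Equiv.Perm.mul_apply, Equiv.swap_apply_left,
        Equiv.swap_apply_right]⟩ with hβ
  have hmem : ∀ n x, (β n).1.s x ∈ insert (1 : T X) F := by
    intro n x
    by_cases hx : x = d
    · have : (β n).1.s x = 1 := if_pos hx
      rw [this]
      exact Finset.mem_insert_self _ _
    · have : (β n).1.s x = Pool.Agent.Y462.SS.sec (al ρ g n) (Equiv.swap d (ρ n) x) := if_neg hx
      rw [this]
      exact Finset.mem_insert_of_mem (hoff n x hx)
  refine Or.inr ⟨ρ, β, fun n => root (al ρ g n) (ρ n), ⟨?_, fun n x => ?_⟩, ?_⟩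
  · -- finitely many values
    have hfin : {b : BT d | ∀ x, b.1.s x ∈ insert (1 : T X) F}.Finite := by
      have h1 : Function.Injective (fun b : BT d => (b.1.p, b.1.s)) := by
        intro b c hbc
        exact Subtype.ext (Wr.ext (congrArg Prod.snd hbc) (congrArg Prod.fst hbc))
      refine Set.Finite.of_finite_image (f := fun b : BT d => (b.1.p, b.1.s)) ?_ h1.injOn
      refine (Set.Finite.prod (Set.finite_univ (α := Equiv.Perm X))
        (Set.Finite.pi (t := fun _ : X => ((insert (1 : T X) F : Finset (T X)) : Set (T X)))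
          fun _ => Finset.finite_toSet _)).subset ?_
      rintro _ ⟨b, hb, rfl⟩
      exact ⟨Set.mem_univ _, fun x _ => hb x⟩
    refine hfin.subset ?_
    rintro _ ⟨n, rfl⟩
    exact hmem n
  · rcases Finset.mem_insert.1 (hmem n x) with h1 | h1
    · rw [h1]
      exact one_mem _
    · exact hF _ h1
  · apply Subtype.ext
    apply Equiv.ext
    intro w
    refine (dA_eq d w g ρ β _ (fun n => rfl) fun n x hx => ?_).symm
    exact if_neg hx

theorem secW_al (ρ : ℕ → X) (g : T X) (n : ℕ) :
    secW g (List.ofFn fun i : Fin n => ρ i) = al ρ g n := by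
  induction n generalizing ρ g with
  | zero => rfl
  | succ n ih =>
    rw [List.ofFn_succ, secW_cons, ← al_sh]
    exact ih (sh ρ) (sec g (ρ 0))

theorem ev_single [Finite X] {H : Subgroup (T X)} (hH : LC H) {F : Finset (T X)}
    (hF : ∀ f ∈ F, f ∈ H) {ρ : ℕ → X} {g : T X} (h : Cd F {ρ} g) : Ev d H g := by
  by_cases hm : ∃ m, al ρ g m ∈ F
  · obtain ⟨m, hm⟩ := hm
    refine ⟨m, fun v hv => ?_⟩
    by_cases hr : OnRay ρ v
    · have h1 : v = List.ofFn fun i : Fin m => ρ i := by
        subst hv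
        exact hr
      rw [h1, secW_al]
      exact Or.inl (hF _ hm)
    · obtain ⟨v₁, v₂, rfl, h2⟩ := h v (by
        intro ρ' hρ'
        rw [Finset.mem_singleton] at hρ'
        rw [hρ']
        exact hr)
      rw [secW_append]
      exact Or.inl (hH.secW_mem (hF _ h2) v₂)
  · push Not at hm
    exact Ev.of_gd (dir_of hF fun n x hx => h.single n (fun m _ => hm m) x hx)

theorem ev_all [Finite X] {H : Subgroup (T X)} (hH : LC H) {F : Finset (T X)}
    (hF : ∀ f ∈ F, f ∈ H) (N : ℕ) : ∀ (R : Finset (ℕ → X)) (g : T X),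
    R.card = N → Cd F R g → Ev d H g := by
  induction N using Nat.strong_induction_on with
  | _ N ih =>
    intro R g hR hg
    by_cases h1 : ∃ ρ ∈ R, ∃ ρ' ∈ R, ρ ≠ ρ'
    · obtain ⟨ρ, hρ, ρ', hρ', hne⟩ := h1
      obtain ⟨t, ht⟩ := Function.ne_iff.1 hne
      clear hne
      induction t generalizing R g ρ ρ' with
      | zero =>
        by_cases hgF : g ∈ F
        · exact Ev.of_gd (Or.inl (hF g hgF))
        apply Ev.of_sec hH
        intro x
        refine ih (shR R x).card ?_ _ _ rfl (hg.sec hgF x)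
        rw [← hR]
        by_contra h2
        rw [not_lt] at h2
        have h3 := all_of_card_shR h2
        exact ht ((h3 ρ hρ).trans (h3 ρ' hρ').symm)
      | succ t iht =>
        by_cases hgF : g ∈ F
        · exact Ev.of_gd (Or.inl (hF g hgF))
        apply Ev.of_sec hH
        intro x
        by_cases h2 : (shR R x).card < R.card
        · exact ih (shR R x).card (hR ▸ h2) _ _ rfl (hg.sec hgF x)
        · rw [not_lt] at h2
          have h3 := all_of_card_shR h2
          refine iht (shR R x) (sec g x) ?_ (hg.sec hgF x) (sh ρ) ?_ (sh ρ') ?_ ht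
          · rw [← hR]
            exact le_antisymm (card_shR_le R x) h2
          · exact Finset.mem_image.2 ⟨ρ, Finset.mem_filter.2 ⟨hρ, h3 ρ hρ⟩, rfl⟩
          · exact Finset.mem_image.2 ⟨ρ', Finset.mem_filter.2 ⟨hρ', h3 ρ' hρ'⟩, rfl⟩
    · by_cases h2 : R = ∅
      · rw [h2] at hg
        exact Ev.of_gd (Or.inl (hF g hg.empty))
      · obtain ⟨ρ, hρ⟩ := Finset.nonempty_iff_ne_empty.2 h2
        have h3 : R ⊆ {ρ} := by
          intro ρ' hρ'
          rw [Finset.mem_singleton]
          by_contra h4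
          exact h1 ⟨ρ', hρ', ρ, hρ, h4⟩
        exact ev_single hH hF (hg.mono h3)

theorem t_gen : S_GEN := by
  intro X _ d g R F hF h
  exact ev_all (d := d) (lc_HB d) hF R.card R g rfl h

end Pool.Agent.Y442.LA
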